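import Pool.Agent.H923R2.FP.Stubs

/-! Transfer of the properties along equality of laws. -/

set_option autoImplicit false

open scoped ComplexConjugate

noncomputable section

namespace Pool.Agent.H923R2.FP.T_TRF

open Pool.Agent.H923R2.FP

theorem t_TRF : S_TRF := by
  intro A Q R _ _ _ _ _ _ _ τ π π' ρ s s' _ hL hs
  have hone : ∀ z : Lt Q R, τ (vl π' ρ s' z) = τ (vl π ρ s z) := by
    intro z
    have := hL [z]
    simpa using this
  constructor
  · intro hS
    refine ⟨hs, ?_, ?_⟩
    · intro w hw hA hz
      rw [hL w]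
      exact hS.free w hw hA fun z hzw => by rw [← hone z]; exact hz z hzw
    · intro w
      have h1 := hL (Lt.s :: w)
      have h2 := hS.sd w
      rw [ev_cons, ev_cons, vl_s, vl_s] at h1
      rw [h1, h2]
      refine ssum_congr (fun l r => ?_) _ _
      rw [hL l, hL r]
  · intro u a X p hG
    refine ⟨?_, hG.Xsa, hG.Xn, hG.hX, hG.ha⟩
    intro n hn
    have h1 := hone (Lt.q ((u ^ n : unitary Q) : Q))
    rw [vl_q, vl_q] at h1
    rw [h1]
    exact hG.hu n hn

end Pool.Agent.H923R2.FP.T_TRF
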